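import Pool.Agent.Helper60.HC.GoalsP

/-!
# Project HC (MP_a41896_nt), packet NORT: Northcott for polynomials in finitely many variables
-/

set_option autoImplicit false

open MvPolynomial

namespace Pool.Agent.Helper70.HC.NORT

open Height Pool.Agent.Helper92.Ru Pool.Agent.Helper42.SG

theorem t : Pool.Agent.Helper60.HC.S_NORT := by
  classical
  intro K _ _ σ _ D B
  have hS : {x : K | mulHeight₁ x ≤ Real.exp B}.Finite :=
    NumberField.finite_setOfPred_mulHeight₁_le K (Real.exp B)
  let S' : Set K := insert 0 {x : K | mulHeight₁ x ≤ Real.exp B}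
  have hS' : S'.Finite := hS.insert 0
  let T : Set (MvPolynomial σ K) :=
    {p | p ≠ 0 ∧ (∀ e, p.degreeOf e ≤ D) ∧ ∀ m, coeff m p ∈ S'}
  have hT : T.Finite := by
    let G : MvPolynomial σ K → ((σ → Fin (D + 1)) → K) := fun p ij =>
      coeff (Finsupp.equivFunOnFinite.symm (fun e => (ij e).val)) p
    refine Set.Finite.of_injOn (f := G) (t := Set.pi Set.univ fun _ => S') ?_ ?_
      (Set.Finite.pi fun _ => hS')
    · intro p hp ij _
      exact hp.2.2 _
    · intro p hp q hq hpq
      ext m
      by_cases hm : ∀ e, m e ≤ D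
      · have h1 := congrFun hpq (fun e => ⟨m e, Nat.lt_succ_of_le (hm e)⟩)
        have h2 : (Finsupp.equivFunOnFinite.symm (fun e => m e)) = m := by
          ext i
          rfl
        change coeff (Finsupp.equivFunOnFinite.symm (fun e => m e)) p =
          coeff (Finsupp.equivFunOnFinite.symm (fun e => m e)) q at h1
        rwa [h2] at h1
      · have h3 : ∀ r ∈ T, coeff m r = 0 := by
          intro r hr
          by_contra h0
          apply hm
          have hs : m ∈ r.support := mem_support_iff.2 h0
          intro e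
          exact (degreeOf_le_iff.1 (hr.2.1 e)) m hs
        rw [h3 p hp, h3 q hq]
  refine ⟨∏ p ∈ hT.toFinset, p, ?_, ?_⟩
  · exact Finset.prod_ne_zero_iff.2 fun p hp => ((Set.Finite.mem_toFinset hT).1 hp).1
  · intro f hf hdeg hB
    obtain ⟨e₀, he₀⟩ := ne_zero_iff.1 hf
    have hu : (coeff e₀ f)⁻¹ ≠ 0 := inv_ne_zero he₀
    have hmem : C (coeff e₀ f)⁻¹ * f ∈ T := by
      refine ⟨mul_ne_zero (fun h => hu (C_eq_zero.1 h)) hf, ?_, ?_⟩
      · intro e
        exact (degreeOf_C_mul_le _ _ _).trans (hdeg e)
      · intro m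
        rw [coeff_C_mul]
        by_cases hm : coeff m f = 0
        · left
          rw [hm, mul_zero]
        · right
          show mulHeight₁ ((coeff e₀ f)⁻¹ * coeff m f) ≤ Real.exp B
          rw [mul_comm, ← div_eq_mul_inv, mulHeight₁_div_eq_mulHeight]
          have h1 : ![coeff m f, coeff e₀ f] = (fun e : f.support => coeff e.1 f) ∘
              ![⟨m, mem_support_iff.2 hm⟩, ⟨e₀, mem_support_iff.2 he₀⟩] := by
            ext i
            fin_cases i <;> rfl
          rw [h1]
          refine (mulHeight_comp_le _ _).trans ?_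
          exact (Real.log_le_iff_le_exp (mulHeight_pos _)).1 hB
    obtain ⟨g, hg⟩ := Finset.dvd_prod_of_mem (fun p => p) ((Set.Finite.mem_toFinset hT).2 hmem)
    refine ⟨C (coeff e₀ f)⁻¹ * g, ?_⟩
    rw [hg]
    ring

end Pool.Agent.Helper70.HC.NORT
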